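import Pool.Agent.Helper63.Sel.Omega

/-!
The families in `D_Ω`, the selection principles and the games.
-/

set_option autoImplicit false

namespace Pool.Agent.Y136.DO

open Set

universe u

/-- The families of open sets whose union is dense. -/
def DFam (X : Type u) [TopologicalSpace X] : Set (Set (Set X)) :=
  {𝒰 | (∀ U ∈ 𝒰, IsOpen U) ∧ Dense (⋃₀ 𝒰)}

/-- The families `𝒰` of open sets with dense union such that no member of `𝒰` is dense and every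
finite family `ℱ` of nonempty open sets has a member of `𝒰` meeting every member of `ℱ`. -/
def DOmega (X : Type u) [TopologicalSpace X] : Set (Set (Set X)) :=
  {𝒰 | 𝒰 ∈ DFam X ∧ (∀ U ∈ 𝒰, ¬ (univ : Set X) ⊆ closure U) ∧
    ∀ ℱ : Set (Set X), ℱ.Finite → (∀ F ∈ ℱ, IsOpen F ∧ F.Nonempty) →
      ∃ U ∈ 𝒰, ∀ F ∈ ℱ, (U ∩ F).Nonempty}

/-- The selection principle `S_1(D_Ω, D_Ω)`. -/
def S1 (X : Type u) [TopologicalSpace X] : Prop :=
  ∀ 𝒰 : ℕ → Set (Set X), (∀ n, 𝒰 n ∈ DOmega X) →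
    ∃ U : ℕ → Set X, (∀ n, U n ∈ 𝒰 n) ∧ {V | ∃ n, U n = V} ∈ DOmega X

/-- The selection principle `S_fin(D_Ω, D_Ω)`. -/
def Sfin (X : Type u) [TopologicalSpace X] : Prop :=
  ∀ 𝒰 : ℕ → Set (Set X), (∀ n, 𝒰 n ∈ DOmega X) →
    ∃ ℱ : ℕ → Set (Set X), (∀ n, (ℱ n).Finite ∧ ℱ n ⊆ 𝒰 n) ∧ (⋃ n, ℱ n) ∈ DOmega X

/-- The mixed selection principle `S_m(D_Ω, D_Ω)`: at most `m n` members of the `n`-th family are
selected, and finitely many if `m n = ∞`. -/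
def Smix (m : ℕ → ℕ∞) (X : Type u) [TopologicalSpace X] : Prop :=
  ∀ 𝒰 : ℕ → Set (Set X), (∀ n, 𝒰 n ∈ DOmega X) →
    ∃ ℱ : ℕ → Set (Set X), (∀ n, (ℱ n).Finite ∧ (ℱ n).encard ≤ m n ∧ ℱ n ⊆ 𝒰 n) ∧
      (⋃ n, ℱ n) ∈ DOmega X

/-- The first `n` members of the sequence `p`, the latest first. -/
def hist {α : Type u} (p : ℕ → α) : ℕ → List α
  | 0 => []
  | n + 1 => p n :: hist p n

/-- The list `h` (latest first) of answers of TWO is possible in `G_1(D_Ω, D_Ω)` when ONE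
follows `σ`. -/
def LegalOne {X : Type u} (σ : List (Set X) → Set (Set X)) : List (Set X) → Prop
  | [] => True
  | U :: h => LegalOne σ h ∧ U ∈ σ h

/-- `σ` is a winning strategy of ONE in `G_1(D_Ω, D_Ω)`: it plays a member of `D_Ω` after every
possible list of answers of TWO, and no play in which ONE follows `σ` is won by TWO. -/
def WinningOne (X : Type u) [TopologicalSpace X] (σ : List (Set X) → Set (Set X)) : Prop :=
  (∀ h, LegalOne σ h → σ h ∈ DOmega X) ∧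
    ∀ U : ℕ → Set X, (∀ n, U n ∈ σ (hist U n)) → {V | ∃ n, U n = V} ∉ DOmega X

/-- The list `h` (latest first) of answers of TWO is possible in the game `G_m(D_Ω, D_Ω)` when ONE
follows `σ`: in the inning `n` TWO selects at most `m n` sets (finitely many if `m n = ∞`). -/
def Legal {X : Type u} (m : ℕ → ℕ∞) (σ : List (Set (Set X)) → Set (Set X)) :
    List (Set (Set X)) → Prop
  | [] => True
  | ℱ :: h => Legal m σ h ∧ ℱ.Finite ∧ ℱ.encard ≤ m h.length ∧ ℱ ⊆ σ h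

/-- `σ` is a winning strategy of ONE in `G_m(D_Ω, D_Ω)`. -/
def Winning (m : ℕ → ℕ∞) (X : Type u) [TopologicalSpace X]
    (σ : List (Set (Set X)) → Set (Set X)) : Prop :=
  (∀ h, Legal m σ h → σ h ∈ DOmega X) ∧
    ∀ ℱ : ℕ → Set (Set X), (∀ n, (ℱ n).Finite ∧ (ℱ n).encard ≤ m n ∧ ℱ n ⊆ σ (hist ℱ n)) →
      (⋃ n, ℱ n) ∉ DOmega X

/-- The partition relation `D_Ω → (D_Ω)^n_k` with countable homogeneous families: for every `𝒰` in
`D_Ω` and every colouring of the `n`-element subsets of `𝒰` by `k` colours some countable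
subfamily of `𝒰` is in `D_Ω` and all its `n`-element subsets have the same colour. -/
def Ramsey (X : Type u) [TopologicalSpace X] (n k : ℕ) : Prop :=
  ∀ 𝒰 ∈ DOmega X, ∀ c : Finset (Set X) → Fin k,
    ∃ 𝒱 ⊆ 𝒰, 𝒱.Countable ∧ 𝒱 ∈ DOmega X ∧
      ∃ i, ∀ s : Finset (Set X), (s : Set (Set X)) ⊆ 𝒱 → s.card = n → c s = i

/-- The partition relation of Baumgartner and Taylor: for every `𝒰` in `D_Ω` and every colouring of
the `n`-element subsets of `𝒰` by `k` colours some subfamily of `𝒰` is in `D_Ω` and is the union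
of finite pieces (the fibres of `p`) such that all `n`-element subsets which contain at most one
member of each piece have the same colour. -/
def BaumgartnerTaylor (X : Type u) [TopologicalSpace X] (n k : ℕ) : Prop :=
  ∀ 𝒰 ∈ DOmega X, ∀ c : Finset (Set X) → Fin k,
    ∃ 𝒱 ⊆ 𝒰, 𝒱 ∈ DOmega X ∧ ∃ p : Set X → ℕ, (∀ j, {V ∈ 𝒱 | p V = j}.Finite) ∧
      ∃ i, ∀ s : Finset (Set X), (s : Set (Set X)) ⊆ 𝒱 → s.card = n →
        InjOn p (s : Set (Set X)) → c s = i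

section basics

variable {X : Type u} [TopologicalSpace X]

/-- Open sets which are not dense. -/
def Adm (X : Type u) [TopologicalSpace X] : Set (Set X) :=
  {U | IsOpen U ∧ ¬ (univ : Set X) ⊆ closure U}

/-- The condition on finite families of nonempty open sets. -/
def Meets (𝒰 : Set (Set X)) : Prop :=
  ∀ ℱ : Set (Set X), ℱ.Finite → (∀ F ∈ ℱ, IsOpen F ∧ F.Nonempty) →
      ∃ U ∈ 𝒰, ∀ F ∈ ℱ, (U ∩ F).Nonempty

theorem mem_iff (𝒰 : Set (Set X)) : 𝒰 ∈ DOmega X ↔ 𝒰 ⊆ Adm X ∧ Meets 𝒰 := by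
  constructor
  · rintro ⟨⟨h1, _⟩, h2, h3⟩
    exact ⟨fun U hU => ⟨h1 U hU, h2 U hU⟩, h3⟩
  · rintro ⟨h1, h3⟩
    refine ⟨⟨fun U hU => (h1 hU).1, ?_⟩, fun U hU => (h1 hU).2, h3⟩
    rw [dense_iff_inter_open]
    intro O hO hne
    obtain ⟨U, hU, h⟩ := h3 {O} (finite_singleton O) (by rintro F rfl; exact ⟨hO, hne⟩)
    obtain ⟨x, hxU, hxO⟩ := h O rfl
    exact ⟨x, hxO, mem_sUnion.mpr ⟨U, hU, hxU⟩⟩

theorem mem_sel (𝒰 : Set (Set X)) :
    𝒰 ∈ DOmega X ↔ Helper63.Sel.Fam (Helper63.Sel.capO X) (Helper63.Sel.admO X) 𝒰 :=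
  (Helper63.Sel.fam_iff X 𝒰).symm

theorem adm_of_subset {U V : Set X} (hU : U ∈ Adm X) (hV : IsOpen V) (h : V ⊆ U) : V ∈ Adm X :=
  ⟨hV, fun h' => hU.2 (h'.trans (closure_mono h))⟩

/-- A family of admissible sets which refines to a member of `D_Ω` is in `D_Ω`. -/
theorem mem_of_refines {𝒰 𝒱 : Set (Set X)} (h : 𝒰 ∈ DOmega X) (h𝒱 : 𝒱 ⊆ Adm X)
    (hr : ∀ U ∈ 𝒰, ∃ V ∈ 𝒱, U ⊆ V) : 𝒱 ∈ DOmega X := by
  rw [mem_iff] at h ⊢
  refine ⟨h𝒱, fun ℱ hℱ ho => ?_⟩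
  obtain ⟨U, hU, hm⟩ := h.2 ℱ hℱ ho
  obtain ⟨V, hV, hUV⟩ := hr U hU
  exact ⟨V, hV, fun F hF => (hm F hF).mono (inter_subset_inter_left _ hUV)⟩

theorem mem_mono {𝒰 𝒱 : Set (Set X)} (h : 𝒰 ∈ DOmega X) (h𝒱 : 𝒱 ⊆ Adm X) (hs : 𝒰 ⊆ 𝒱) :
    𝒱 ∈ DOmega X :=
  mem_of_refines h h𝒱 fun U hU => ⟨U, hs hU, subset_rfl⟩

/-- Finite families are not in `D_Ω`. -/
theorem not_finite {𝒰 : Set (Set X)} (h : 𝒰 ∈ DOmega X) : ¬ 𝒰.Finite := by
  intro hf
  rw [mem_iff] at h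
  obtain ⟨U, hU, hm⟩ := h.2 ((fun U => (closure U)ᶜ) '' 𝒰) (hf.image _) (by
    rintro F ⟨U, hU, rfl⟩
    refine ⟨isClosed_closure.isOpen_compl, ?_⟩
    obtain ⟨x, _, hx⟩ := not_subset.mp (h.1 hU).2
    exact ⟨x, hx⟩)
  obtain ⟨x, hx1, hx2⟩ := hm _ ⟨U, hU, rfl⟩
  exact hx2 (subset_closure hx1)

/-- No member of `D_Ω` consists of subsets of one admissible set. -/
theorem not_below {𝒰 : Set (Set X)} (h : 𝒰 ∈ DOmega X) {W : Set X} (hW : W ∈ Adm X) :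
    ∃ U ∈ 𝒰, ¬ U ⊆ W := by
  by_contra hcon
  push Not at hcon
  have : ({W} : Set (Set X)) ∈ DOmega X :=
    mem_of_refines h (by rintro V rfl; exact hW) fun U hU => ⟨W, rfl, hcon U hU⟩
  exact not_finite this (finite_singleton W)

/-- Partitions into finitely many pieces. -/
theorem colour {κ : Type*} [Finite κ] {𝒰 : Set (Set X)} (h : 𝒰 ∈ DOmega X) (f : Set X → κ) :
    ∃ i, {U ∈ 𝒰 | f U = i} ∈ DOmega X := by
  by_contra hcon
  push Not at hcon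
  rw [mem_iff] at h
  have h1 : ∀ i, ∃ ℱ : Set (Set X), ℱ.Finite ∧ (∀ F ∈ ℱ, IsOpen F ∧ F.Nonempty) ∧
      ∀ U ∈ 𝒰, f U = i → ∃ F ∈ ℱ, ¬ (U ∩ F).Nonempty := by
    intro i
    have h2 := hcon i
    rw [mem_iff, not_and] at h2
    have h3 := h2 fun U hU => h.1 hU.1
    unfold Meets at h3
    push Not at h3
    obtain ⟨ℱ, h4, h5, h6⟩ := h3
    exact ⟨ℱ, h4, h5, fun U hU hi => by
      obtain ⟨F, hF, hF'⟩ := h6 U ⟨hU, hi⟩
      exact ⟨F, hF, by rw [hF']; exact not_nonempty_empty⟩⟩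
  choose ℱ h2 h3 h4 using h1
  obtain ⟨U, hU, hm⟩ := h.2 (⋃ i, ℱ i) (finite_iUnion h2) (by
    intro F hF
    obtain ⟨i, hi⟩ := mem_iUnion.mp hF
    exact h3 i F hi)
  obtain ⟨F, hF, hF'⟩ := h4 (f U) U hU rfl
  exact hF' (hm F (mem_iUnion.mpr ⟨_, hF⟩))

/-- Removing finitely many sets. -/
theorem diff_finite {𝒰 𝒢 : Set (Set X)} (h : 𝒰 ∈ DOmega X) (hf : (𝒰 ∩ 𝒢).Finite) :
    𝒰 \ 𝒢 ∈ DOmega X := by
  classical
  obtain ⟨i, hi⟩ := colour h (fun U => decide (U ∈ 𝒢))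
  cases i with
  | false =>
    have : {U ∈ 𝒰 | decide (U ∈ 𝒢) = false} = 𝒰 \ 𝒢 := by ext U; simp
    rwa [this] at hi
  | true =>
    exfalso
    have : {U ∈ 𝒰 | decide (U ∈ 𝒢) = true} = 𝒰 ∩ 𝒢 := by ext U; simp
    rw [this] at hi
    exact not_finite hi hf

/-- Common refinements of finitely many members of `D_Ω`. -/
theorem common {ι : Type*} {𝒰 : ι → Set (Set X)} (h : ∀ j, 𝒰 j ∈ DOmega X) {𝒲 : Set (Set X)}
    (h𝒲 : 𝒲 ∈ DOmega X) (B : Finset ι) :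
    {V | IsOpen V ∧ (∃ W ∈ 𝒲, V ⊆ W) ∧ ∀ j ∈ B, ∃ U ∈ 𝒰 j, V ⊆ U} ∈ DOmega X := by
  classical
  rw [mem_iff] at h𝒲 ⊢
  refine ⟨fun V hV => ?_, fun ℱ hℱ ho => ?_⟩
  · obtain ⟨h1, ⟨W, hW, h2⟩, _⟩ := hV
    exact adm_of_subset (h𝒲.1 hW) h1 h2
  induction B using Finset.induction_on with
  | empty =>
    obtain ⟨W, hW, hm⟩ := h𝒲.2 ℱ hℱ ho
    exact ⟨W, ⟨(h𝒲.1 hW).1, ⟨W, hW, subset_rfl⟩, by simp⟩, hm⟩
  | insert a B _ ih =>
    obtain ⟨V, ⟨hV1, ⟨W, hW, hVW⟩, hV2⟩, hm⟩ := ih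
    obtain ⟨h1, h2⟩ := (mem_iff _).mp (h a)
    obtain ⟨U, hU, hm'⟩ := h2 ((fun F => V ∩ F) '' ℱ) (hℱ.image _) (by
      rintro _ ⟨F, hF, rfl⟩
      exact ⟨hV1.inter (ho F hF).1, hm F hF⟩)
    refine ⟨V ∩ U, ⟨hV1.inter (h1 hU).1, ⟨W, hW, inter_subset_left.trans hVW⟩, fun j hj => ?_⟩,
      fun F hF => ?_⟩
    · rcases Finset.mem_insert.mp hj with rfl | hj
      · exact ⟨U, hU, inter_subset_right⟩
      · obtain ⟨U', hU', h3⟩ := hV2 j hj
        exact ⟨U', hU', inter_subset_left.trans h3⟩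
    · obtain ⟨x, hxU, hxV, hxF⟩ := hm' _ ⟨F, hF, rfl⟩
      exact ⟨x, ⟨hxV, hxU⟩, hxF⟩

end basics

section history

theorem hist_eq {α : Type u} (p : ℕ → α) (n : ℕ) : hist p n = Helper63.Sel.hist p n := by
  induction n with
  | zero => rfl
  | succ n ih => simp only [hist, Helper63.Sel.hist, ih]

theorem hist_length {α : Type u} (p : ℕ → α) (n : ℕ) : (hist p n).length = n := by
  induction n with
  | zero => rfl
  | succ n ih => simp [hist, ih]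

theorem hist_map {α β : Type u} (f : α → β) (p : ℕ → α) (n : ℕ) :
    (hist p n).map f = hist (fun n => f (p n)) n := by
  induction n with
  | zero => rfl
  | succ n ih => simp [hist, ih]

theorem mem_hist {α : Type u} (p : ℕ → α) (n : ℕ) (x : α) :
    x ∈ hist p n ↔ ∃ i < n, p i = x := by
  induction n with
  | zero => simp [hist]
  | succ n ih =>
    simp only [hist, List.mem_cons, ih]
    constructor
    · rintro (rfl | ⟨i, hi, rfl⟩)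
      · exact ⟨n, by omega, rfl⟩
      · exact ⟨i, by omega, rfl⟩
    · rintro ⟨i, hi, rfl⟩
      rcases Nat.lt_succ_iff_lt_or_eq.mp hi with h | h
      · exact Or.inr ⟨i, h, rfl⟩
      · subst h; exact Or.inl rfl

end history

end Pool.Agent.Y136.DO
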