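import Pool.Agent.Y136.DO.Games

/-!
Selection principles for `D_Ω` and partition relations.
-/

set_option autoImplicit false

namespace Pool.Agent.Y136.DO

open Set

universe u

variable {X : Type u} [TopologicalSpace X]

/-- Both partition relations: the pieces have at most `b` members. -/
def Rel (b : ℕ∞) (X : Type u) [TopologicalSpace X] (n k : ℕ) : Prop :=
  ∀ 𝒰 ∈ DOmega X, ∀ c : Finset (Set X) → Fin k,
    ∃ 𝒱 ⊆ 𝒰, 𝒱 ∈ DOmega X ∧ ∃ p : Set X → ℕ,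
      (∀ j, {V ∈ 𝒱 | p V = j}.Finite ∧ {V ∈ 𝒱 | p V = j}.encard ≤ b) ∧
      ∃ i, ∀ s : Finset (Set X), (s : Set (Set X)) ⊆ 𝒱 → s.card = n →
        InjOn p (s : Set (Set X)) → c s = i

theorem rel_top (n k : ℕ) : Rel ⊤ X n k ↔ BaumgartnerTaylor X n k := by
  constructor
  · intro h 𝒰 h𝒰 c
    obtain ⟨𝒱, h1, h2, p, h3, h4⟩ := h 𝒰 h𝒰 c
    exact ⟨𝒱, h1, h2, p, fun j => (h3 j).1, h4⟩
  · intro h 𝒰 h𝒰 c
    obtain ⟨𝒱, h1, h2, p, h3, h4⟩ := h 𝒰 h𝒰 c
    exact ⟨𝒱, h1, h2, p, fun j => ⟨h3 j, le_top⟩, h4⟩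

theorem rel_one (n k : ℕ) : Rel 1 X n k ↔ Ramsey X n k := by
  constructor
  · intro h 𝒰 h𝒰 c
    obtain ⟨𝒱, h1, h2, p, h3, i, h4⟩ := h 𝒰 h𝒰 c
    have hp : InjOn p 𝒱 := fun A hA B hB hAB =>
      Set.encard_le_one_iff.mp (h3 (p B)).2 A B ⟨hA, hAB⟩ ⟨hB, rfl⟩
    exact ⟨𝒱, h1, countable_iff_exists_injOn.mpr ⟨p, hp⟩, h2, i, fun s hs hn =>
      h4 s hs hn (hp.mono hs)⟩
  · intro h 𝒰 h𝒰 c
    obtain ⟨𝒱, h1, h0, h2, i, h4⟩ := h 𝒰 h𝒰 c
    obtain ⟨p, hp⟩ := countable_iff_exists_injOn.mp h0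
    have h5 : ∀ j, {V ∈ 𝒱 | p V = j}.encard ≤ 1 := fun j =>
      Set.encard_le_one_iff.mpr fun A B hA hB => hp hA.1 hB.1 (hA.2.trans hB.2.symm)
    exact ⟨𝒱, h1, h2, p, fun j => ⟨Set.finite_of_encard_le_coe (k := 1) (h5 j), h5 j⟩, i,
      fun s hs hn _ => h4 s hs hn⟩

theorem nonempty_of_mem {𝒰 : Set (Set X)} (h : 𝒰 ∈ DOmega X) : 𝒰.Nonempty := by
  obtain ⟨U, hU, _⟩ := ((mem_iff _).mp h).2 ∅ finite_empty (by simp)
  exact ⟨U, hU⟩

/-- One refinement step of the strategy of ONE. -/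
theorem refine_step {𝒰 : Set (Set X)} {h0 : Set X → ℕ}
    (hf : ∀ j, {A ∈ 𝒰 | h0 A ≤ j}.Finite) {k : ℕ} (c : Finset (Set X) → Fin k)
    {𝒢 𝒲 : Set (Set X)} (h𝒲 : 𝒲 ∈ DOmega X) (hs : 𝒲 ⊆ 𝒰) (h𝒢 : 𝒢.Finite) :
    ∃ 𝒲' ⊆ 𝒲, 𝒲' ∈ DOmega X ∧ (∀ V ∈ 𝒲', ∀ A ∈ 𝒢, h0 A < h0 V) ∧
      ∀ s : Finset (Set X), (s : Set (Set X)) ⊆ 𝒢 → ∀ V ∈ 𝒲', ∀ V' ∈ 𝒲',
        c (open Classical in insert V s) = c (open Classical in insert V' s) := by
  classical
  obtain ⟨M, hM⟩ := (h𝒢.image h0).bddAbove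
  have h1 : 𝒲 \ {A | h0 A ≤ M} ∈ DOmega X := by
    refine diff_finite h𝒲 ((hf M).subset ?_)
    rintro A ⟨hA, hA'⟩
    exact ⟨hs hA, hA'⟩
  have hfin : Finite {s : Finset (Set X) // (s : Set (Set X)) ⊆ 𝒢} := by
    have : {s : Finset (Set X) | (s : Set (Set X)) ⊆ 𝒢}.Finite := by
      refine (h𝒢.toFinset.powerset.finite_toSet).subset fun s hs => ?_
      simp only [Finset.coe_powerset, mem_preimage, mem_powerset_iff, Finite.coe_toFinset]
      exact hs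
    exact this.to_subtype
  obtain ⟨g, hg⟩ := colour h1
    (fun V => fun s : {s : Finset (Set X) // (s : Set (Set X)) ⊆ 𝒢} => c (insert V s.1))
  refine ⟨_, (sep_subset _ _).trans sdiff_subset, hg, ?_, ?_⟩
  · rintro V ⟨⟨_, hV⟩, _⟩ A hA
    have := hM (mem_image_of_mem h0 hA)
    simp only [mem_ofPred_eq, not_le] at hV
    omega
  · rintro s hs' V ⟨_, hV⟩ V' ⟨_, hV'⟩
    have := (congrFun hV ⟨s, hs'⟩).trans (congrFun hV' ⟨s, hs'⟩).symm
    convert this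

/-- The union of the families in a list. -/
def all (h : List (Set (Set X))) : Set (Set X) := {A | ∃ G ∈ h, A ∈ G}

omit [TopologicalSpace X] in
theorem all_finite {h : List (Set (Set X))} (hf : ∀ G ∈ h, G.Finite) : (all h).Finite := by
  have : all h = ⋃ G ∈ {G | G ∈ h}, G := by
    ext A; simp [all]
  rw [this]
  exact (List.finite_toSet h).biUnion hf

/-- The end-homogeneous subfamily. -/
theorem end_homogeneous {b : ℕ∞} (hB : Beat X fun ℱ => ℱ.encard ≤ b) {𝒰 : Set (Set X)}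
    (h𝒰 : 𝒰 ∈ DOmega X) {h0 : Set X → ℕ} (hf : ∀ j, {A ∈ 𝒰 | h0 A ≤ j}.Finite) {k : ℕ}
    (c : Finset (Set X) → Fin k) :
    ∃ 𝒱 ⊆ 𝒰, 𝒱 ∈ DOmega X ∧ ∃ p : Set X → ℕ,
      (∀ j, {V ∈ 𝒱 | p V = j}.Finite ∧ {V ∈ 𝒱 | p V = j}.encard ≤ b) ∧
      (∀ A ∈ 𝒱, ∀ B ∈ 𝒱, p A < p B → h0 A < h0 B) ∧
      ∃ c' : Finset (Set X) → Fin k, ∀ s : Finset (Set X), (s : Set (Set X)) ⊆ 𝒱 →
        ∀ B ∈ 𝒱, (∀ A ∈ s, p A < p B) → c (open Classical in insert B s) = c' s := by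
  classical
  have h1 : ∀ 𝒢 𝒲 : Set (Set X), ∃ 𝒲', 𝒲 ∈ DOmega X → 𝒲 ⊆ 𝒰 → 𝒢.Finite →
      𝒲' ⊆ 𝒲 ∧ 𝒲' ∈ DOmega X ∧ (∀ V ∈ 𝒲', ∀ A ∈ 𝒢, h0 A < h0 V) ∧
      ∀ s : Finset (Set X), (s : Set (Set X)) ⊆ 𝒢 → ∀ V ∈ 𝒲', ∀ V' ∈ 𝒲',
        c (insert V s) = c (insert V' s) := by
    intro 𝒢 𝒲
    by_cases h : 𝒲 ∈ DOmega X ∧ 𝒲 ⊆ 𝒰 ∧ 𝒢.Finite
    · obtain ⟨𝒲', h2, h3, h4, h5⟩ := refine_step hf c h.1 h.2.1 h.2.2
      refine ⟨𝒲', fun _ _ _ => ⟨h2, h3, h4, fun s hs V hV V' hV' => ?_⟩⟩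
      have := h5 s hs V hV V' hV'
      convert this
    · exact ⟨∅, fun h2 h3 h4 => absurd ⟨h2, h3, h4⟩ h⟩
  choose R hR using h1
  let σ : List (Set (Set X)) → Set (Set X) := fun h => List.rec (R ∅ 𝒰)
    (fun F h 𝒲 => if (all (F :: h)).Finite then R (all (F :: h)) 𝒲 else 𝒲) h
  have hσ0 : σ [] = R ∅ 𝒰 := rfl
  have hσc : ∀ F h, σ (F :: h) =
      if (all (F :: h)).Finite then R (all (F :: h)) (σ h) else σ h := fun F h => rfl
  have hσ : ∀ h, σ h ∈ DOmega X ∧ σ h ⊆ 𝒰 := by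
    intro h
    induction h with
    | nil =>
      have := hR ∅ 𝒰 h𝒰 subset_rfl finite_empty
      rw [hσ0]
      exact ⟨this.2.1, this.1⟩
    | cons F h ih =>
      rw [hσc]
      by_cases hF : (all (F :: h)).Finite
      · rw [if_pos hF]
        have := hR (all (F :: h)) (σ h) ih.1 ih.2 hF
        exact ⟨this.2.1, this.1.trans ih.2⟩
      · rw [if_neg hF]; exact ih
  obtain ⟨ℱ, h2, h3⟩ := hB σ fun h => (hσ h).1
  have hallfin : ∀ n, (all (hist ℱ n)).Finite := by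
    intro n
    refine all_finite fun G hG => ?_
    obtain ⟨i, _, rfl⟩ := (mem_hist ℱ n G).mp hG
    exact (h2 i).1
  have hstep : ∀ n, σ (hist ℱ (n + 1)) ⊆ σ (hist ℱ n) := by
    intro n
    show σ (ℱ n :: hist ℱ n) ⊆ _
    rw [hσc, if_pos (show (all (ℱ n :: hist ℱ n)).Finite from hallfin (n + 1))]
    exact (hR _ _ (hσ _).1 (hσ _).2 (hallfin (n + 1))).1
  have hanti : ∀ n m, n ≤ m → σ (hist ℱ m) ⊆ σ (hist ℱ n) := by
    intro n m hnm
    induction m, hnm using Nat.le_induction with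
    | base => exact subset_rfl
    | succ m _ ih => exact (hstep m).trans ih
  have hprop : ∀ n, (∀ V ∈ σ (hist ℱ n), ∀ A ∈ all (hist ℱ n), h0 A < h0 V) ∧
      ∀ s : Finset (Set X), (s : Set (Set X)) ⊆ all (hist ℱ n) → ∀ V ∈ σ (hist ℱ n),
        ∀ V' ∈ σ (hist ℱ n), c (insert V s) = c (insert V' s) := by
    intro n
    cases n with
    | zero =>
      have h4 : all (hist ℱ 0) = ∅ := by
        ext A
        simp [all, hist]
      rw [h4]
      show (∀ V ∈ R ∅ 𝒰, _) ∧ ∀ s : Finset (Set X), _ → ∀ V ∈ R ∅ 𝒰, ∀ V' ∈ R ∅ 𝒰, _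
      exact (hR ∅ 𝒰 h𝒰 subset_rfl finite_empty).2.2
    | succ n =>
      have h4 : σ (hist ℱ (n + 1)) = R (all (hist ℱ (n + 1))) (σ (hist ℱ n)) := by
        show σ (ℱ n :: hist ℱ n) = _
        rw [hσc, if_pos (show (all (ℱ n :: hist ℱ n)).Finite from hallfin (n + 1))]
        rfl
      rw [h4]
      exact (hR _ _ (hσ _).1 (hσ _).2 (hallfin (n + 1))).2.2
  have hmem : ∀ i n A, i < n → A ∈ ℱ i → A ∈ all (hist ℱ n) := fun i n A hi hA =>
    ⟨ℱ i, (mem_hist ℱ n _).mpr ⟨i, hi, rfl⟩, hA⟩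
  let p : Set X → ℕ := fun A => if h : ∃ n, A ∈ ℱ n then Nat.find h else 0
  have hp : ∀ A ∈ ⋃ n, ℱ n, A ∈ ℱ (p A) := by
    intro A hA
    have h4 : ∃ n, A ∈ ℱ n := mem_iUnion.mp hA
    simp only [p, dif_pos h4]
    exact Nat.find_spec h4
  have hVne : ∀ n, ∃ V, V ∈ σ (hist ℱ n) := fun n => nonempty_of_mem (hσ _).1
  choose v hv using hVne
  refine ⟨⋃ n, ℱ n, iUnion_subset fun n => ((h2 n).2.2).trans (hσ _).2, h3, p, fun j => ?_,
    ?_, fun s => c (insert (v (s.sup fun A => p A + 1)) s), ?_⟩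
  · have h4 : {V ∈ ⋃ n, ℱ n | p V = j} ⊆ ℱ j := by
      rintro V ⟨hV, rfl⟩
      exact hp V hV
    exact ⟨(h2 j).1.subset h4, (encard_le_encard h4).trans (h2 j).2.1⟩
  · intro A hA B hB hAB
    exact (hprop (p B)).1 B ((h2 (p B)).2.2 (hp B hB)) A (hmem _ _ _ hAB (hp A hA))
  · intro s hs B hB hlt
    have h4 : (s.sup fun A => p A + 1) ≤ p B := Finset.sup_le fun A hA => hlt A hA
    have h5 : (s : Set (Set X)) ⊆ all (hist ℱ (s.sup fun A => p A + 1)) := by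
      intro A hA
      have h6 : p A + 1 ≤ s.sup fun A => p A + 1 :=
        Finset.le_sup (f := fun A => p A + 1) (Finset.mem_coe.mp hA)
      exact hmem (p A) _ A (by omega) (hp A (hs hA))
    have h7 := (hprop (s.sup fun A => p A + 1)).2 s h5 B
      (hanti _ _ h4 ((h2 (p B)).2.2 (hp B hB))) (v _) (hv _)
    convert h7

theorem rel_aux {b : ℕ∞} (hB : Beat X fun ℱ => ℱ.encard ≤ b) (n k : ℕ) :
    ∀ (c : Finset (Set X) → Fin k) (𝒰 : Set (Set X)) (h0 : Set X → ℕ), 𝒰 ∈ DOmega X →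
      (∀ j, {A ∈ 𝒰 | h0 A ≤ j}.Finite) → ∃ 𝒱 ⊆ 𝒰, 𝒱 ∈ DOmega X ∧ ∃ p : Set X → ℕ,
      (∀ j, {V ∈ 𝒱 | p V = j}.Finite ∧ {V ∈ 𝒱 | p V = j}.encard ≤ b) ∧
      (∀ A ∈ 𝒱, ∀ B ∈ 𝒱, p A < p B → h0 A < h0 B) ∧
      ∃ i, ∀ s : Finset (Set X), (s : Set (Set X)) ⊆ 𝒱 → s.card = n →
        InjOn p (s : Set (Set X)) → c s = i := by
  classical
  induction n with
  | zero =>
    intro c 𝒰 h0 h𝒰 hf
    obtain ⟨𝒱, h1, h2, p, h3, h4, _⟩ := end_homogeneous hB h𝒰 hf c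
    refine ⟨𝒱, h1, h2, p, h3, h4, c ∅, fun s _ hs _ => ?_⟩
    rw [Finset.card_eq_zero.mp hs]
  | succ n ih =>
    intro c 𝒰 h0 h𝒰 hf
    obtain ⟨𝒱, h1, h2, p, h3, h4, c', h5⟩ := end_homogeneous hB h𝒰 hf c
    obtain ⟨𝒱', h1', h2', p', h3', h4', i, h5'⟩ := ih c' 𝒱 p h2 (by
      intro j
      have : {A ∈ 𝒱 | p A ≤ j} = ⋃ i ∈ {i | i ≤ j}, {A ∈ 𝒱 | p A = i} := by
        ext A
        simp only [mem_ofPred_eq, mem_iUnion, exists_prop]
        constructor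
        · rintro ⟨hA, hj⟩; exact ⟨p A, hj, hA, rfl⟩
        · rintro ⟨i, hi, hA, rfl⟩; exact ⟨hA, hi⟩
      rw [this]
      exact (finite_le_nat j).biUnion fun i _ => (h3 i).1)
    refine ⟨𝒱', h1'.trans h1, h2', p', h3', fun A hA B hB hAB =>
      h4 A (h1' hA) B (h1' hB) (h4' A hA B hB hAB), i, fun t ht hn hinj => ?_⟩
    have htne : t.Nonempty := Finset.card_pos.mp (by omega)
    obtain ⟨B, hB, hmax⟩ := t.exists_max_image p' htne
    have hlt : ∀ A ∈ t.erase B, p A < p B := by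
      intro A hA
      obtain ⟨hAB, hAt⟩ := Finset.mem_erase.mp hA
      refine h4' A (ht hAt) B (ht hB) (lt_of_le_of_ne (hmax A hAt) fun heq => hAB ?_)
      exact hinj hAt hB heq
    have hsub : ((t.erase B : Finset (Set X)) : Set (Set X)) ⊆ 𝒱' := fun A hA =>
      ht (Finset.mem_of_mem_erase (Finset.mem_coe.mp hA))
    have h6 := h5 (t.erase B) (hsub.trans h1') B (h1' (ht hB)) hlt
    have h7 := h5' (t.erase B) hsub (by rw [Finset.card_erase_of_mem hB]; omega)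
      (hinj.mono fun A hA => Finset.mem_of_mem_erase (Finset.mem_coe.mp hA))
    rw [← h7, ← h6]
    congr 1
    ext A
    simp only [Finset.mem_insert, Finset.mem_erase]
    constructor
    · intro hA
      by_cases h : A = B
      · exact Or.inl h
      · exact Or.inr ⟨h, hA⟩
    · rintro (rfl | hA)
      · exact hB
      · exact hA.2

theorem rel_of_beat {b : ℕ∞} (hB : Beat X fun ℱ => ℱ.encard ≤ b) (n k : ℕ) : Rel b X n k := by
  intro 𝒰 h𝒰 c
  obtain ⟨ℱ, h1, h2⟩ := hB (fun _ => 𝒰) fun _ => h𝒰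
  have hcount : (⋃ n, ℱ n).Countable := countable_iUnion fun n => (h1 n).1.countable
  obtain ⟨h0, hinj⟩ := countable_iff_exists_injOn.mp hcount
  obtain ⟨𝒱, h3, h4, p, h5, _, h6⟩ := rel_aux hB n k c (⋃ n, ℱ n) h0 h2 (fun j => by
    refine Set.Finite.of_finite_image (f := h0) ((finite_le_nat j).subset ?_)
      (hinj.mono (sep_subset _ _))
    rintro _ ⟨A, ⟨_, hA⟩, rfl⟩
    exact hA)
  exact ⟨𝒱, h3.trans (iUnion_subset fun n => (h1 n).2.2), h4, p, h5, h6⟩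

theorem rel_countable {b : ℕ∞} {n k : ℕ} (hk : 0 < k) (h : Rel b X n k) {𝒰 : Set (Set X)}
    (h𝒰 : 𝒰 ∈ DOmega X) : ∃ 𝒲 ⊆ 𝒰, 𝒲 ∈ DOmega X ∧ 𝒲.Countable := by
  obtain ⟨𝒲, h𝒲0, h𝒲, q, hq, _⟩ := h 𝒰 h𝒰 fun _ => ⟨0, hk⟩
  refine ⟨𝒲, h𝒲0, h𝒲, ?_⟩
  have : 𝒲 = ⋃ j, {V ∈ 𝒲 | q V = j} := by
    ext V
    simp
  rw [this]
  exact countable_iUnion fun j => (hq j).1.countable

/-- `A` and `B` are the two first members of `s` in the order given by `g`. -/
def First (g : Set X → ℕ) (s : Finset (Set X)) (A B : Set X) : Prop :=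
  A ∈ s ∧ B ∈ s ∧ g A < g B ∧ ∀ C ∈ s, C ≠ A → C ≠ B → g B < g C

omit [TopologicalSpace X] in
theorem First.unique {g : Set X → ℕ} {s : Finset (Set X)} {A B A' B' : Set X}
    (h : First g s A B) (h' : First g s A' B') : A = A' ∧ B = B' := by
  obtain ⟨hA, hB, hAB, hm⟩ := h
  obtain ⟨hA', hB', hAB', hm'⟩ := h'
  have h1 : A = A' := by
    by_contra hne
    by_cases h2 : A = B'
    · subst h2
      -- `A'` is before `A`
      by_cases h3 : A' = B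
      · subst h3; omega
      · have := hm A' hA' (Ne.symm hne) h3
        omega
    · have h3 := hm' A hA hne h2
      by_cases h4 : A' = B
      · subst h4; omega
      · have := hm A' hA' (Ne.symm hne) h4
        omega
  subst h1
  refine ⟨rfl, ?_⟩
  by_contra hne
  have h2 : B ≠ A := fun h => by subst h; omega
  have h3 : B' ≠ A := fun h => by subst h; omega
  have h4 := hm' B hB h2 hne
  have h5 := hm B' hB' h3 (Ne.symm hne)
  omega

/-- The relation for some `n ≥ 2` and `k ≥ 2` implies the relation for pairs and two colours. -/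
theorem rel_down {b : ℕ∞} {n k : ℕ} (hn : 2 ≤ n) (hk : 2 ≤ k) (h : Rel b X n k) :
    Rel b X 2 2 := by
  classical
  intro 𝒰 h𝒰 c
  obtain ⟨𝒲, h𝒲0, h𝒲, hcount⟩ := rel_countable (by omega) h h𝒰
  obtain ⟨g, hg⟩ := countable_iff_exists_injOn.mp hcount
  let c' : Finset (Set X) → Fin k := fun s =>
    if hs : ∃ q : Set X × Set X, First g s q.1 q.2 then
      Fin.castLE hk (c {(Classical.choose hs).1, (Classical.choose hs).2}) else ⟨0, by omega⟩
  have hc' : ∀ s A B, First g s A B → c' s = Fin.castLE hk (c {A, B}) := by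
    intro s A B hs
    have hex : ∃ q : Set X × Set X, First g s q.1 q.2 := ⟨(A, B), hs⟩
    have hu := (Classical.choose_spec hex).unique hs
    simp only [c', dif_pos hex]
    rw [hu.1, hu.2]
  obtain ⟨𝒱, h𝒱s, h𝒱, p, hp, i, hi⟩ := h 𝒲 h𝒲 c'
  have hinf : 𝒱.Infinite := not_finite h𝒱
  have hext : ∀ A ∈ 𝒱, ∀ B ∈ 𝒱, g A < g B → p A ≠ p B → ∀ r : ℕ, ∃ S : Finset (Set X),
      (S : Set (Set X)) ⊆ 𝒱 ∧ S.card = r + 2 ∧ InjOn p (S : Set (Set X)) ∧ First g S A B := by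
    intro A hA B hB hAB hpAB r
    induction r with
    | zero =>
      have hne : A ≠ B := fun h => by subst h; omega
      refine ⟨{A, B}, ?_, Finset.card_pair hne, ?_, by simp, by simp, hAB, ?_⟩
      · intro C hC
        simp only [Finset.coe_insert, Finset.coe_singleton, mem_insert_iff,
          mem_singleton_iff] at hC
        rcases hC with rfl | rfl
        · exact hA
        · exact hB
      · intro C hC D hD hCD
        simp only [Finset.coe_insert, Finset.coe_singleton, mem_insert_iff,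
          mem_singleton_iff] at hC hD
        rcases hC with rfl | rfl <;> rcases hD with rfl | rfl
        · rfl
        · exact absurd hCD hpAB
        · exact absurd hCD.symm hpAB
        · rfl
      · intro C hC h1 h2
        simp only [Finset.mem_insert, Finset.mem_singleton] at hC
        rcases hC with rfl | rfl
        · exact absurd rfl h1
        · exact absurd rfl h2
    | succ r ih =>
      obtain ⟨S, hS1, hS2, hS3, hS4⟩ := ih
      have hbad : ({C ∈ 𝒱 | g C ≤ g B} ∪ ⋃ D ∈ S, {C ∈ 𝒱 | p C = p D}).Finite := by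
        refine Set.Finite.union ?_ (S.finite_toSet.biUnion fun D _ => (hp _).1)
        refine Set.Finite.of_finite_image (f := g) ((finite_le_nat (g B)).subset ?_)
          (hg.mono ((sep_subset _ _).trans h𝒱s))
        rintro _ ⟨C, ⟨_, hC⟩, rfl⟩
        exact hC
      obtain ⟨C, hC, hC'⟩ := (hinf.sdiff hbad).nonempty
      have hC1 : g B < g C := by
        by_contra hcon
        exact hC' (Or.inl ⟨hC, not_lt.mp hcon⟩)
      have hC2 : ∀ D ∈ S, p C ≠ p D := fun D hD heq =>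
        hC' (Or.inr (mem_biUnion (Finset.mem_coe.mpr hD) ⟨hC, heq⟩))
      have hCS : C ∉ S := fun hCS => hC2 C hCS rfl
      refine ⟨insert C S, ?_, by rw [Finset.card_insert_of_notMem hCS, hS2], ?_,
        Finset.mem_insert_of_mem hS4.1, Finset.mem_insert_of_mem hS4.2.1, hAB, ?_⟩
      · intro D hD
        rw [Finset.coe_insert] at hD
        rcases hD with rfl | hD
        · exact hC
        · exact hS1 hD
      · rw [Finset.coe_insert]
        intro D hD E hE hDE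
        rcases hD with rfl | hD <;> rcases hE with rfl | hE
        · rfl
        · exact absurd hDE (hC2 E hE)
        · exact absurd hDE.symm (hC2 D hD)
        · exact hS3 hD hE hDE
      · intro D hD h1 h2
        rcases Finset.mem_insert.mp hD with rfl | hD
        · exact hC1
        · exact hS4.2.2.2 D hD h1 h2
  refine ⟨𝒱, h𝒱s.trans h𝒲0, h𝒱, p, hp, ⟨i.val % 2, Nat.mod_lt _ (by omega)⟩,
    fun s hs hs2 hinj => ?_⟩
  -- order the pair
  have hmain : ∀ A ∈ 𝒱, ∀ B ∈ 𝒱, g A < g B → p A ≠ p B →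
      c {A, B} = ⟨i.val % 2, Nat.mod_lt _ (by omega)⟩ := by
    intro A hA B hB hAB hpAB
    obtain ⟨S, hS1, hS2, hS3, hS4⟩ := hext A hA B hB hAB hpAB (n - 2)
    have h1 := hi S hS1 (by omega) hS3
    rw [hc' S A B hS4] at h1
    have h2 : (c {A, B}).val = i.val := by
      rw [← h1]; rfl
    apply Fin.ext
    show (c {A, B}).val = i.val % 2
    have := (c {A, B}).isLt
    omega
  obtain ⟨A, B, hne, rfl⟩ := Finset.card_eq_two.mp hs2
  have hA : A ∈ 𝒱 := hs (by simp)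
  have hB : B ∈ 𝒱 := hs (by simp)
  have hpAB : p A ≠ p B := fun heq => hne (hinj (by simp) (by simp) heq)
  have hgAB : g A ≠ g B := fun heq => hne (hg (h𝒱s hA) (h𝒱s hB) heq)
  rcases lt_or_gt_of_ne hgAB with hlt | hlt
  · exact hmain A hA B hB hlt hpAB
  · rw [Finset.pair_comm]
    exact hmain B hB A hA hlt (Ne.symm hpAB)

/-- The partition relation for pairs and two colours implies the selection principle. -/
theorem smix_of_rel {b : ℕ∞} (h : Rel b X 2 2) : Smix (fun _ => b) X := by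
  classical
  intro 𝒰 h𝒰
  -- a countable subfamily of the first family
  obtain ⟨𝒲, h𝒲0, h𝒲, hcount⟩ := rel_countable (by omega) h (h𝒰 0)
  obtain ⟨W, hW⟩ := hcount.exists_eq_range (nonempty_of_mem h𝒲)
  have hWadm : ∀ n, W n ∈ Adm X := fun n =>
    ((mem_iff _).mp h𝒲).1 (by rw [hW]; exact mem_range_self n)
  have h1 : {V | ∃ n, ∃ U ∈ 𝒰 n, V = W n ∩ U} ∈ DOmega X := by
    rw [mem_iff]
    constructor
    · rintro _ ⟨n, U, hU, rfl⟩
      exact adm_of_subset (hWadm n) ((hWadm n).1.inter (((mem_iff _).mp (h𝒰 n)).1 hU).1)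
        inter_subset_left
    · intro ℱ hℱ ho
      obtain ⟨W', hW', hm⟩ := ((mem_iff _).mp h𝒲).2 ℱ hℱ ho
      rw [hW] at hW'
      obtain ⟨n, rfl⟩ := hW'
      obtain ⟨U, hU, hm'⟩ := ((mem_iff _).mp (h𝒰 n)).2 ((fun F => W n ∩ F) '' ℱ) (hℱ.image _) (by
        rintro _ ⟨F, hF, rfl⟩
        exact ⟨(hWadm n).1.inter (ho F hF).1, hm F hF⟩)
      refine ⟨W n ∩ U, ⟨n, U, hU, rfl⟩, fun F hF => ?_⟩
      obtain ⟨x, hxU, hxW, hxF⟩ := hm' _ ⟨F, hF, rfl⟩
      exact ⟨x, ⟨hxW, hxU⟩, hxF⟩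
  let ν : Set X → ℕ := fun V => if h : ∃ n, ∃ U ∈ 𝒰 n, V = W n ∩ U then Nat.find h else 0
  have hν : ∀ V ∈ {V | ∃ n, ∃ U ∈ 𝒰 n, V = W n ∩ U}, ∃ U ∈ 𝒰 (ν V), V = W (ν V) ∩ U := by
    intro V hV
    simp only [ν, dif_pos (show ∃ n, ∃ U ∈ 𝒰 n, V = W n ∩ U from hV)]
    exact Nat.find_spec (show ∃ n, ∃ U ∈ 𝒰 n, V = W n ∩ U from hV)
  obtain ⟨𝒱, h𝒱s, h𝒱, p, hp, i, hi⟩ := h _ h1 fun s =>
    if ∀ A ∈ s, ∀ B ∈ s, ν A = ν B then 0 else 1
  have hpair : ∀ A ∈ 𝒱, ∀ B ∈ 𝒱, p A ≠ p B → (if ν A = ν B then (0 : Fin 2) else 1) = i := by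
    intro A hA B hB hAB
    have hne : A ≠ B := fun h => hAB (by rw [h])
    have h2 := hi {A, B} (by
      intro C hC
      simp only [Finset.coe_insert, Finset.coe_singleton, mem_insert_iff,
        mem_singleton_iff] at hC
      rcases hC with rfl | rfl
      · exact hA
      · exact hB) (Finset.card_pair hne) (by
      intro C hC D hD hCD
      simp only [Finset.coe_insert, Finset.coe_singleton, mem_insert_iff,
        mem_singleton_iff] at hC hD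
      rcases hC with rfl | rfl <;> rcases hD with rfl | rfl
      · rfl
      · exact absurd hCD hAB
      · exact absurd hCD.symm hAB
      · rfl)
    rw [← h2]
    by_cases h3 : ν A = ν B
    · rw [if_pos h3, if_pos]
      intro C hC D hD
      simp only [Finset.mem_insert, Finset.mem_singleton] at hC hD
      rcases hC with rfl | rfl <;> rcases hD with rfl | rfl
      · rfl
      · exact h3
      · exact h3.symm
      · rfl
    · rw [if_neg h3, if_neg]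
      intro h4
      exact h3 (h4 A (by simp) B (by simp))
  have hfib : ∀ A ∈ 𝒱, ∀ B ∈ 𝒱, ν A = ν B → p A = p B := by
    intro A hA B hB hAB
    by_contra hne
    have hi0 : i = 0 := by
      have := hpair A hA B hB hne
      rw [if_pos hAB] at this
      exact this.symm
    have h2 : ∀ C ∈ 𝒱, ∀ D ∈ 𝒱, p C ≠ p D → ν C = ν D := by
      intro C hC D hD hCD
      have := hpair C hC D hD hCD
      rw [hi0] at this
      by_contra h3
      rw [if_neg h3] at this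
      exact absurd this (by decide)
    have h3 : ∀ C ∈ 𝒱, ν C = ν A := by
      intro C hC
      by_cases h4 : p C = p A
      · rw [hAB]
        exact h2 C hC B hB (by rw [h4]; exact hne)
      · exact h2 C hC A hA h4
    obtain ⟨U, hU, hU'⟩ := not_below h𝒱 (hWadm (ν A))
    obtain ⟨U', _, h5⟩ := hν U (h𝒱s hU)
    rw [h3 U hU] at h5
    exact hU' (by rw [h5]; exact inter_subset_left)
  have h2 : ∀ V, ∃ U, V ∈ 𝒱 → U ∈ 𝒰 (ν V) ∧ V = W (ν V) ∩ U := by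
    intro V
    by_cases hV : V ∈ 𝒱
    · obtain ⟨U, h3, h4⟩ := hν V (h𝒱s hV)
      exact ⟨U, fun _ => ⟨h3, h4⟩⟩
    · exact ⟨∅, fun h => absurd h hV⟩
  choose f hf using h2
  have h3 : ∀ n, ∃ j, {V ∈ 𝒱 | ν V = n} ⊆ {V ∈ 𝒱 | p V = j} := by
    intro n
    by_cases hn : {V ∈ 𝒱 | ν V = n}.Nonempty
    · obtain ⟨A, hA, hA'⟩ := hn
      refine ⟨p A, ?_⟩
      rintro V ⟨hV, hV'⟩
      exact ⟨hV, hfib V hV A hA (hV'.trans hA'.symm)⟩
    · rw [not_nonempty_iff_eq_empty] at hn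
      exact ⟨0, by rw [hn]; exact empty_subset _⟩
  refine ⟨fun n => f '' {V ∈ 𝒱 | ν V = n}, fun n => ?_, ?_⟩
  · obtain ⟨j, hj⟩ := h3 n
    refine ⟨((hp j).1.subset hj).image f,
      (encard_image_le _ _).trans ((encard_le_encard hj).trans (hp j).2), ?_⟩
    rintro _ ⟨V, ⟨hV, rfl⟩, rfl⟩
    exact (hf V hV).1
  · refine mem_of_refines h𝒱 ?_ ?_
    · intro U hU
      obtain ⟨n, V, ⟨hV, rfl⟩, rfl⟩ := mem_iUnion.mp hU
      exact ((mem_iff _).mp (h𝒰 _)).1 (hf V hV).1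
    · intro V hV
      refine ⟨f V, mem_iUnion.mpr ⟨ν V, V, ⟨hV, rfl⟩, rfl⟩, ?_⟩
      have h4 := (hf V hV).2
      intro x hx
      rw [h4] at hx
      exact hx.2

/-- `S_1(D_Ω, D_Ω)` and the partition relations. -/
theorem s1_iff_ramsey {n k : ℕ} (hn : 2 ≤ n) (hk : 2 ≤ k) : S1 X ↔ Ramsey X n k := by
  rw [← rel_one]
  refine ⟨fun h => rel_of_beat (beat_one h) n k, fun h => ?_⟩
  refine s1_of_smix (m := fun _ => 1) ?_ (smix_of_rel (rel_down hn hk h))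
  simp

/-- `S_fin(D_Ω, D_Ω)` and the partition relations. -/
theorem sfin_iff_bt {n k : ℕ} (hn : 2 ≤ n) (hk : 2 ≤ k) : Sfin X ↔ BaumgartnerTaylor X n k := by
  rw [← rel_top]
  refine ⟨fun h => rel_of_beat (b := ⊤) ?_ n k, fun h => ?_⟩
  · intro τ hτ
    obtain ⟨ℱ, h1, h2⟩ := beat_fin h τ hτ
    exact ⟨ℱ, fun n => ⟨(h1 n).1, le_top, (h1 n).2.2⟩, h2⟩
  · refine (smix_iff_sfin (m := fun _ => ⊤) ?_).mp (smix_of_rel (rel_down hn hk h))
    simpa using infinite_univ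

end Pool.Agent.Y136.DO
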