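import Pool.Agent.Y136.DO.Basic

/-!
Mixed selection principles and the corresponding games.
-/

set_option autoImplicit false

namespace Pool.Agent.Y136.DO

open Set

universe u

variable {X : Type u} [TopologicalSpace X]

/-- Every strategy of ONE is beaten by selections with the property `Ok`. -/
def Beat (X : Type u) [TopologicalSpace X] (Ok : Set (Set X) → Prop) : Prop :=
  ∀ τ : List (Set (Set X)) → Set (Set X), (∀ h, τ h ∈ DOmega X) →
    ∃ ℱ : ℕ → Set (Set X), (∀ n, (ℱ n).Finite ∧ Ok (ℱ n) ∧ ℱ n ⊆ τ (hist ℱ n)) ∧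
      (⋃ n, ℱ n) ∈ DOmega X

theorem selOne (hX : S1 X) :
    Helper63.Sel.SelOne (Helper63.Sel.capO X) (Helper63.Sel.admO X) := by
  intro 𝒰 h𝒰
  obtain ⟨U, h1, h2⟩ := hX 𝒰 fun n => (mem_sel _).mpr (h𝒰 n)
  exact ⟨U, h1, (mem_sel _).mp h2⟩

theorem selFin (hX : Sfin X) :
    Helper63.Sel.SelFin (Helper63.Sel.capO X) (Helper63.Sel.admO X) := by
  intro 𝒰 h𝒰
  obtain ⟨ℱ, h1, h2⟩ := hX 𝒰 fun n => (mem_sel _).mpr (h𝒰 n)
  exact ⟨ℱ, h1, (mem_sel _).mp h2⟩

theorem beat_one (hX : S1 X) : Beat X fun ℱ => ℱ.encard ≤ 1 := by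
  intro τ hτ
  obtain ⟨U, h1, h2⟩ := Helper63.Sel.beat_one (Helper63.Sel.goodO X) (selOne hX)
    (fun h => τ (h.map fun U => {U})) (fun _ => True) trivial (fun _ _ _ _ => trivial)
    (fun h _ => (mem_sel _).mp (hτ _))
  refine ⟨fun n => {U n}, fun n => ⟨finite_singleton _, by simp, ?_⟩, ?_⟩
  · have := h1 n
    rw [← hist_eq, hist_map] at this
    exact singleton_subset_iff.mpr this
  · rw [iUnion_singleton_eq_range]
    exact (mem_sel _).mpr h2

theorem beat_fin (hX : Sfin X) : Beat X fun _ => True := by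
  intro τ hτ
  obtain ⟨ℱ, h1, h2⟩ := Helper63.Sel.beat_fin (Helper63.Sel.goodO X) (selFin hX)
    τ (fun _ => True) trivial (fun _ _ _ _ _ => trivial) (fun h _ => (mem_sel _).mp (hτ _))
  refine ⟨ℱ, fun n => ⟨(h1 n).1, trivial, ?_⟩, (mem_sel _).mpr h2⟩
  rw [hist_eq]
  exact (h1 n).2

theorem hist_pad {α : Type u} (p : ℕ → α) (d : α) (b r : ℕ) (h : ∀ i < r, p (b + i) = d) :
    hist p (b + r) = List.replicate r d ++ hist p b := by
  induction r with
  | zero => rfl
  | succ r ih =>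
    show p (b + r) :: hist p (b + r) = _
    rw [ih fun i hi => h i (by omega), h r (by omega)]
    rfl

/-- The history in which the dummy answers are filled in: the answers are given in the innings
`a 0 < a 1 < ...`. -/
def fill (a : ℕ → ℕ) : List (Set (Set X)) → List (Set (Set X))
  | [] => List.replicate (a 0) ∅
  | x :: h => List.replicate (a (h.length + 1) - a h.length - 1) ∅ ++ (x :: fill a h)

open Classical in
/-- The play in which the dummy answers are filled in. -/
noncomputable def fillSeq (a : ℕ → ℕ) (x : ℕ → Set (Set X)) (n : ℕ) : Set (Set X) :=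
  if h : ∃ k, a k = n then x (Classical.choose h) else ∅

omit [TopologicalSpace X] in
theorem fillSeq_apply {a : ℕ → ℕ} (ha : StrictMono a) (x : ℕ → Set (Set X)) (k : ℕ) :
    fillSeq a x (a k) = x k := by
  have h : ∃ k', a k' = a k := ⟨k, rfl⟩
  have h2 : Classical.choose h = k := ha.injective (Classical.choose_spec h)
  unfold fillSeq
  rw [dif_pos h, h2]

omit [TopologicalSpace X] in
theorem fillSeq_empty {a : ℕ → ℕ} (x : ℕ → Set (Set X)) {n : ℕ} (h : ∀ k, a k ≠ n) :
    fillSeq a x n = ∅ := by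
  unfold fillSeq
  rw [dif_neg (by push Not; exact h)]

omit [TopologicalSpace X] in
theorem fill_hist {a : ℕ → ℕ} (ha : StrictMono a) (x : ℕ → Set (Set X)) (k : ℕ) :
    fill a (hist x k) = hist (fillSeq a x) (a k) := by
  induction k with
  | zero =>
    show List.replicate (a 0) ∅ = _
    have := hist_pad (fillSeq a x) ∅ 0 (a 0) fun i hi => fillSeq_empty x fun k => by
      have := ha.monotone (Nat.zero_le k)
      omega
    rw [Nat.zero_add] at this
    rw [this]
    simp [hist]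
  | succ k ih =>
    have hlt : a k < a (k + 1) := ha (Nat.lt_succ_self k)
    have := hist_pad (fillSeq a x) ∅ (a k + 1) (a (k + 1) - a k - 1) fun i hi =>
      fillSeq_empty x fun j => by
        intro hj
        have h1 : a k < a j := by omega
        have h2 : a j < a (k + 1) := by omega
        have h3 := ha.lt_iff_lt.mp h1
        have h4 := ha.lt_iff_lt.mp h2
        omega
    rw [show a k + 1 + (a (k + 1) - a k - 1) = a (k + 1) by omega] at this
    rw [this]
    show List.replicate (a ((hist x k).length + 1) - a (hist x k).length - 1) ∅ ++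
      (x k :: fill a (hist x k)) = _
    rw [ih, hist_length]
    show _ = _ ++ (fillSeq a x (a k) :: _)
    rw [fillSeq_apply ha]

/-- TWO can restrict his nonempty answers to the innings in an infinite set. -/
theorem no_strategy {Ok : Set (Set X) → Prop} (hB : Beat X Ok) {m : ℕ → ℕ∞} {A : Set ℕ}
    (hA : A.Infinite) (hOk : ∀ n ∈ A, ∀ ℱ, Ok ℱ → ℱ.encard ≤ m n) :
    ¬ ∃ σ : List (Set (Set X)) → Set (Set X), Winning m X σ := by
  classical
  rintro ⟨σ, hσ, hwin⟩
  let a : ℕ → ℕ := Nat.nth (· ∈ A)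
  have ha : StrictMono a := Nat.nth_strictMono hA
  have haA : ∀ k, a k ∈ A := fun k => Nat.nth_mem_of_infinite hA k
  obtain ⟨x, hx1, hx2⟩ := hB (fun h => if Legal m σ (fill a h) then σ (fill a h) else σ []) (by
    intro h
    by_cases hL : Legal m σ (fill a h)
    · simp only [hL, if_true]; exact hσ _ hL
    · simp only [hL, if_false]; exact hσ _ trivial)
  have step : ∀ n, Legal m σ (hist (fillSeq a x) n) →
      (fillSeq a x n).Finite ∧ (fillSeq a x n).encard ≤ m n ∧
        fillSeq a x n ⊆ σ (hist (fillSeq a x) n) := by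
    intro n hL
    by_cases hn : ∃ k, a k = n
    · obtain ⟨k, rfl⟩ := hn
      rw [fillSeq_apply ha]
      obtain ⟨h1, h2, h3⟩ := hx1 k
      rw [fill_hist ha, if_pos hL] at h3
      exact ⟨h1, hOk _ (haA k) _ h2, h3⟩
    · push Not at hn
      rw [fillSeq_empty x hn]
      exact ⟨finite_empty, by simp, empty_subset _⟩
  have legal : ∀ n, Legal m σ (hist (fillSeq a x) n) := by
    intro n
    induction n with
    | zero => trivial
    | succ n ih =>
      have := step n ih
      exact ⟨ih, this.1, by rw [hist_length]; exact this.2.1, this.2.2⟩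
  refine hwin (fillSeq a x) (fun n => step n (legal n)) ?_
  have : (⋃ n, fillSeq a x n) = ⋃ k, x k := by
    apply Subset.antisymm
    · refine iUnion_subset fun n => ?_
      by_cases hn : ∃ k, a k = n
      · obtain ⟨k, rfl⟩ := hn
        rw [fillSeq_apply ha]
        exact subset_iUnion x k
      · push Not at hn
        rw [fillSeq_empty x hn]
        exact empty_subset _
    · refine iUnion_subset fun k => ?_
      rw [← fillSeq_apply ha x k]
      exact subset_iUnion (fillSeq a x) (a k)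
  rw [this]
  exact hx2

/-- A principle with infinitely many innings of unbounded size is `S_fin`. -/
theorem smix_iff_sfin {m : ℕ → ℕ∞} (hm : {n | m n = ⊤}.Infinite) : Smix m X ↔ Sfin X := by
  classical
  constructor
  · intro h 𝒰 h𝒰
    obtain ⟨ℱ, h1, h2⟩ := h 𝒰 h𝒰
    exact ⟨ℱ, fun n => ⟨(h1 n).1, (h1 n).2.2⟩, h2⟩
  · intro h 𝒰 h𝒰
    let a : ℕ → ℕ := Nat.nth (· ∈ {n | m n = ⊤})
    have ha : StrictMono a := Nat.nth_strictMono hm
    have haA : ∀ k, m (a k) = ⊤ := fun k => Nat.nth_mem_of_infinite hm k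
    obtain ⟨x, h1, h2⟩ := h (fun k => 𝒰 (a k)) fun k => h𝒰 _
    refine ⟨fillSeq a x, fun n => ?_, ?_⟩
    · by_cases hn : ∃ k, a k = n
      · obtain ⟨k, rfl⟩ := hn
        rw [fillSeq_apply ha, haA]
        exact ⟨(h1 k).1, le_top, (h1 k).2⟩
      · push Not at hn
        rw [fillSeq_empty x hn]
        exact ⟨finite_empty, by simp, empty_subset _⟩
    · have hU : ∀ n, fillSeq a x n ⊆ 𝒰 n := by
        intro n
        by_cases hn : ∃ k, a k = n
        · obtain ⟨k, rfl⟩ := hn
          rw [fillSeq_apply ha]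
          exact (h1 k).2
        · push Not at hn
          rw [fillSeq_empty x hn]
          exact empty_subset _
      refine mem_mono h2 (iUnion_subset fun n => (hU n).trans ((mem_iff _).mp (h𝒰 n)).1)
        (iUnion_subset fun k => ?_)
      rw [← fillSeq_apply ha x k]
      exact subset_iUnion (fillSeq a x) (a k)

/-- A mixed principle with only finitely many innings of unbounded size implies `S_1`. -/
theorem s1_of_smix {m : ℕ → ℕ∞} (hm : {n | m n = ⊤}.Finite) (h : Smix m X) : S1 X := by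
  classical
  intro 𝒰 h𝒰
  obtain ⟨ℱ, h1, h2⟩ := h (fun n => {V | IsOpen V ∧ (∃ W ∈ 𝒰 0, V ⊆ W) ∧
    ∀ i ∈ Finset.range (m n).toNat, ∃ U ∈ 𝒰 (Nat.pair n i), V ⊆ U})
    (fun n => common (fun i => h𝒰 (Nat.pair n i)) (h𝒰 0) _)
  -- the selections in the bounded innings are enough
  have h3 : (⋃ n, ℱ n) \ (⋃ n ∈ {n | m n = ⊤}, ℱ n) ∈ DOmega X := by
    refine diff_finite h2 (Set.Finite.subset ?_ inter_subset_right)
    exact hm.biUnion fun n _ => (h1 n).1
  -- enumerate the selections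
  have h4 : ∀ n, ∃ ψ : ℕ → Set X, m n ≠ ⊤ → ∀ V ∈ ℱ n, ∃ i < (m n).toNat, ψ i = V := by
    intro n
    by_cases hn : m n = ⊤
    · exact ⟨fun _ => ∅, fun h => absurd hn h⟩
    obtain ⟨hf, hc, _⟩ := h1 n
    let T := hf.toFinset
    have hT : T.card ≤ (m n).toNat := by
      have h5 : (ℱ n).encard = (T.card : ℕ∞) := by
        rw [← Set.Finite.coe_toFinset hf, Set.encard_coe_eq_coe_finsetCard]
      rw [h5] at hc
      have h6 := ENat.toNat_le_toNat hc hn
      simpa using h6
    refine ⟨fun i => T.toList.getD i ∅, fun _ V hV => ?_⟩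
    have hV' : V ∈ T.toList := by simpa [T] using hV
    obtain ⟨i, hi, rfl⟩ := List.getElem_of_mem hV'
    refine ⟨i, ?_, ?_⟩
    · rw [Finset.length_toList] at hi
      omega
    · simp [List.getD_eq_getElem?_getD, List.getElem?_eq_getElem hi]
  choose ψ hψ using h4
  have h5 : ∀ j, ∃ U ∈ 𝒰 j, (∃ U' ∈ 𝒰 j, ψ j.unpair.1 j.unpair.2 ⊆ U') →
      ψ j.unpair.1 j.unpair.2 ⊆ U := by
    intro j
    by_cases hj : ∃ U' ∈ 𝒰 j, ψ j.unpair.1 j.unpair.2 ⊆ U'
    · obtain ⟨U', h6, h7⟩ := hj
      exact ⟨U', h6, fun _ => h7⟩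
    · have h6 : (𝒰 j).Nonempty := by
        obtain ⟨U, hU, _⟩ := ((mem_iff _).mp (h𝒰 j)).2 ∅ finite_empty (by simp)
        exact ⟨U, hU⟩
      obtain ⟨U, hU⟩ := h6
      exact ⟨U, hU, fun h7 => absurd h7 hj⟩
  choose U hU1 hU2 using h5
  refine ⟨U, hU1, mem_of_refines h3 ?_ ?_⟩
  · rintro _ ⟨n, rfl⟩
    exact ((mem_iff _).mp (h𝒰 n)).1 (hU1 n)
  · rintro V ⟨hV, hV'⟩
    obtain ⟨n, hn⟩ := mem_iUnion.mp hV
    have hmn : m n ≠ ⊤ := by
      intro htop
      exact hV' (mem_biUnion (show n ∈ {n | m n = ⊤} from htop) hn)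
    obtain ⟨i, hi, rfl⟩ := hψ n hmn V hn
    obtain ⟨_, _, h6⟩ := (h1 n).2.2 hn
    obtain ⟨U', hU', h7⟩ := h6 i (Finset.mem_range.mpr hi)
    refine ⟨U (Nat.pair n i), ⟨Nat.pair n i, rfl⟩, ?_⟩
    have := hU2 (Nat.pair n i)
    rw [Nat.unpair_pair] at this
    exact this ⟨U', hU', h7⟩

/-- `S_1` implies all mixed principles with infinitely many innings in which TWO may select. -/
theorem smix_of_s1 {m : ℕ → ℕ∞} (hm : {n | m n ≠ 0}.Infinite) (h : S1 X) : Smix m X := by
  classical
  intro 𝒰 h𝒰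
  let a : ℕ → ℕ := Nat.nth (· ∈ {n | m n ≠ 0})
  have ha : StrictMono a := Nat.nth_strictMono hm
  have haA : ∀ k, m (a k) ≠ 0 := fun k => Nat.nth_mem_of_infinite hm k
  obtain ⟨U, h1, h2⟩ := h (fun k => 𝒰 (a k)) fun k => h𝒰 _
  have hsub : ∀ n, (fillSeq a (fun k => {U k}) n).Finite ∧
      (fillSeq a (fun k => {U k}) n).encard ≤ m n ∧ fillSeq a (fun k => {U k}) n ⊆ 𝒰 n := by
    intro n
    by_cases hn : ∃ k, a k = n
    · obtain ⟨k, rfl⟩ := hn
      rw [fillSeq_apply ha]
      refine ⟨finite_singleton _, ?_, singleton_subset_iff.mpr (h1 k)⟩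
      rw [encard_singleton]
      exact Order.one_le_iff_ne_zero.mpr (haA k)
    · push Not at hn
      rw [fillSeq_empty _ hn]
      exact ⟨finite_empty, by simp, empty_subset _⟩
  refine ⟨fillSeq a (fun k => {U k}), hsub, ?_⟩
  refine mem_mono h2 (iUnion_subset fun n => (hsub n).2.2.trans ((mem_iff _).mp (h𝒰 n)).1) ?_
  rintro _ ⟨k, rfl⟩
  refine mem_iUnion.mpr ⟨a k, ?_⟩
  rw [fillSeq_apply ha]
  rfl

/-- If TWO may select in only finitely many innings, the principle fails. -/
theorem not_smix {m : ℕ → ℕ∞} (hm : {n | m n ≠ 0}.Finite) (hne : (DOmega X).Nonempty) :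
    ¬ Smix m X := by
  intro h
  obtain ⟨𝒰, h𝒰⟩ := hne
  obtain ⟨ℱ, h1, h2⟩ := h (fun _ => 𝒰) fun _ => h𝒰
  refine not_finite h2 ?_
  have : (⋃ n, ℱ n) ⊆ ⋃ n ∈ {n | m n ≠ 0}, ℱ n := by
    refine iUnion_subset fun n => ?_
    by_cases hn : m n = 0
    · have h3 := (h1 n).2.1
      rw [hn, nonpos_iff_eq_zero, encard_eq_zero] at h3
      rw [h3]
      exact empty_subset _
    · exact subset_biUnion_of_mem (u := ℱ) (show n ∈ {n | m n ≠ 0} from hn)
  exact (hm.biUnion fun n _ => (h1 n).1).subset this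

/-- Games and mixed selection principles. -/
theorem smix_iff (m : ℕ → ℕ∞) :
    Smix m X ↔ ¬ ∃ σ : List (Set (Set X)) → Set (Set X), Winning m X σ := by
  classical
  constructor
  · intro h
    by_cases hne : (DOmega X).Nonempty
    · by_cases h0 : {n | m n ≠ 0}.Finite
      · exact absurd h (not_smix h0 hne)
      · by_cases htop : {n | m n = ⊤}.Finite
        · exact no_strategy (beat_one (s1_of_smix htop h)) h0 fun n hn ℱ hℱ =>
            hℱ.trans (Order.one_le_iff_ne_zero.mpr hn)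
        · exact no_strategy (beat_fin ((smix_iff_sfin htop).mp h)) htop fun n hn ℱ _ => by
            rw [show m n = ⊤ from hn]; exact le_top
    · rintro ⟨σ, hσ, _⟩
      exact hne ⟨_, hσ [] trivial⟩
  · intro hno
    by_contra hX
    unfold Smix at hX
    push Not at hX
    obtain ⟨𝒰, h1, h2⟩ := hX
    refine hno ⟨fun h => 𝒰 h.length, fun h _ => h1 h.length, fun ℱ hℱ => h2 ℱ fun n => ?_⟩
    have := hℱ n
    simpa [hist_length] using this

/-- The game `G_1`. -/
theorem s1_iff : S1 X ↔ ¬ ∃ σ : List (Set X) → Set (Set X), WinningOne X σ := by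
  classical
  constructor
  · rintro hX ⟨σ, hσ, hwin⟩
    obtain ⟨U, h1, h2⟩ := Helper63.Sel.beat_one (Helper63.Sel.goodO X) (selOne hX)
      σ (LegalOne σ) trivial (fun h U hh hU => ⟨hh, hU⟩) (fun h hh => (mem_sel _).mp (hσ h hh))
    exact hwin U (fun n => by rw [hist_eq]; exact h1 n) ((mem_sel _).mpr h2)
  · intro hno
    by_contra hX
    unfold S1 at hX
    push Not at hX
    obtain ⟨𝒰, h1, h2⟩ := hX
    refine hno ⟨fun h => 𝒰 h.length, fun h _ => h1 h.length, fun U hU => h2 U fun n => ?_⟩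
    have := hU n
    simpa [hist_length] using this

/-- A mixed principle is `S_1` if only finitely many innings are unbounded. -/
theorem smix_iff_s1 {m : ℕ → ℕ∞} (hm : {n | m n ≠ 0}.Infinite) (hm' : {n | m n = ⊤}.Finite) :
    Smix m X ↔ S1 X :=
  ⟨s1_of_smix hm', smix_of_s1 hm⟩

end Pool.Agent.Y136.DO
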